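import Pool.Agent.Lib.MP_6bc78b_nt.MS.GL.Iface

/-! EDI: the Dirichlet series part of the explicit formula. -/

set_option autoImplicit false

open Complex Filter Topology MeasureTheory Set ArithmeticFunction

namespace Pool.Agent.Lib.MP_6bc78b_nt.MS.GL.H17

open Pool.Agent.Lib.MP_6bc78b_nt.MS.GL

/-- `n^{-(3/2+it)}` against the kernel. -/
lemma kp_term_integral {φ : ℝ → ℝ} {l M : ℝ} (hl : 0 < l) (hφ : IsPhi l M φ) (h2 : KinStatement)
    (y : ℝ) {n : ℕ} (hn : n ≠ 0) :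
    ∫ t : ℝ, (n : ℂ) ^ (-((3 / 2 : ℝ) + t * I : ℂ)) * kp φ l (1 + ((t - y : ℝ) : ℂ) * I) =
      (n : ℂ) ^ (-(1 / 2 + y * I : ℂ)) *
        ((Real.pi * (if Real.log n ≤ l then φ (Real.log n) else 0) : ℝ) : ℂ) := by
  have hn0 : (n : ℂ) ≠ 0 := by exact_mod_cast hn
  have hn1 : (1:ℝ) ≤ n := by exact_mod_cast Nat.one_le_iff_ne_zero.2 hn
  rw [← (h2 l M φ hl hφ).2 (Real.log n) (Real.log_nonneg hn1), ← integral_const_mul]
  rw [← integral_sub_right_eq_self (fun x : ℝ => (n : ℂ) ^ (-(1 / 2 + y * I : ℂ)) *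
    (Complex.exp (-((Real.log n : ℝ) : ℂ) * (1 + x * I)) * kp φ l (1 + x * I))) y]
  congr 1
  funext t
  rw [← mul_assoc]
  congr 1
  rw [Complex.cpow_def_of_ne_zero hn0, Complex.cpow_def_of_ne_zero hn0, ← Complex.exp_add,
    Complex.natCast_log.symm]
  congr 1
  push_cast
  ring

/-- **EDI** -/
theorem edi (h1 : KphStatement) (h2 : KinStatement) : EdiStatement := by
  intro T lam M y φ hT hlam hφ
  obtain ⟨l, hl'⟩ : ∃ l, l = lam * Real.log T := ⟨_, rfl⟩
  have hl : 0 < l := by rw [hl']; have := Real.log_pos hT; positivity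
  rw [← hl'] at hφ ⊢
  obtain ⟨hd, -, -, -⟩ := h1 l M φ hl hφ
  have hKi : Integrable (fun t : ℝ => kp φ l (1 + ((t - y : ℝ) : ℂ) * I)) :=
    (h2 l M φ hl hφ).1.comp_sub_right y
  obtain ⟨Lm, hLm⟩ : ∃ Lm : ℕ → ℂ, Lm = fun n => ((vonMangoldt n : ℝ) : ℂ) := ⟨_, rfl⟩
  have hL0 : Lm 0 = 0 := by rw [hLm]; simp
  have hre : ∀ t : ℝ, ((3 / 2 : ℝ) + t * I : ℂ).re = 3 / 2 := fun t => by simp
  have hs : ∀ t : ℝ, 1 < ((3 / 2 : ℝ) + t * I : ℂ).re := fun t => by rw [hre]; norm_num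
  have hld : ∀ t : ℝ, logDeriv riemannZeta ((3 / 2 : ℝ) + t * I) =
      -∑' n, LSeries.term Lm ((3 / 2 : ℝ) + t * I) n := by
    intro t
    have h := LSeries_vonMangoldt_eq_deriv_riemannZeta_div (hs t)
    rw [logDeriv_apply, hLm]
    rw [LSeries] at h
    rw [h]; ring
  obtain ⟨F, hF⟩ : ∃ F : ℕ → ℝ → ℂ, F = fun (n : ℕ) (t : ℝ) => LSeries.term Lm ((3 / 2 : ℝ) + t * I) n *
    kp φ l (1 + ((t - y : ℝ) : ℂ) * I) := ⟨_, rfl⟩
  have hFe : ∀ n t, F n t = LSeries.term Lm ((3 / 2 : ℝ) + t * I) n *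
    kp φ l (1 + ((t - y : ℝ) : ℂ) * I) := fun n t => by rw [hF]
  have hFn : ∀ n t, ‖F n t‖ = ‖LSeries.term Lm (3 / 2 : ℝ) n‖ *
      ‖kp φ l (1 + ((t - y : ℝ) : ℂ) * I)‖ := by
    intro n t
    rw [hFe, norm_mul, LSeries.norm_term_eq, LSeries.norm_term_eq, hre, Complex.ofReal_re]
  have hcont : ∀ n, Continuous (fun t : ℝ => LSeries.term Lm ((3 / 2 : ℝ) + t * I) n) := by
    intro n
    by_cases hn : n = 0
    · subst hn; simp only [LSeries.term_zero]; exact continuous_const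
    · simp only [LSeries.term_def₀ hL0]
      have hn0 : (n : ℂ) ≠ 0 := by exact_mod_cast hn
      apply Continuous.mul continuous_const
      apply Continuous.const_cpow (by fun_prop) (Or.inl hn0)
  have hKc : Continuous (fun t : ℝ => kp φ l (1 + ((t - y : ℝ) : ℂ) * I)) :=
    hd.continuous.comp (by fun_prop)
  have hFi : ∀ n, Integrable (F n) := by
    intro n
    refine (hKi.norm.const_mul (‖LSeries.term Lm (3 / 2 : ℝ) n‖)).mono' ?_ ?_
    · rw [hF]; exact ((hcont n).mul hKc).aestronglyMeasurable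
    · exact Eventually.of_forall fun t => (hFn n t).le
  have hS2 : Summable (fun n => ‖LSeries.term Lm (3 / 2 : ℝ) n‖) := by
    have h2 : LSeriesSummable (fun n => ((vonMangoldt n : ℝ) : ℂ)) (3 / 2 : ℝ) :=
      LSeriesSummable_vonMangoldt (by simp; norm_num)
    rw [← hLm] at h2
    exact h2.norm
  have hsumm : Summable (fun n => ∫ t, ‖F n t‖) := by
    have h1 : (fun n => ∫ t, ‖F n t‖) = fun n => ‖LSeries.term Lm (3 / 2 : ℝ) n‖ *
        ∫ t, ‖kp φ l (1 + ((t - y : ℝ) : ℂ) * I)‖ := by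
      funext n
      rw [← integral_const_mul]
      congr 1
      funext t
      exact hFn n t
    rw [h1]
    exact hS2.mul_right _
  have hmain := hasSum_integral_of_summable_integral_norm hFi hsumm
  have hts : ∀ t, ∑' n, F n t = -(logDeriv riemannZeta ((3 / 2 : ℝ) + t * I) *
      kp φ l (1 + ((t - y : ℝ) : ℂ) * I)) := by
    intro t
    rw [hld]
    simp only [hFe]
    rw [tsum_mul_right]
    ring
  have hldc : Continuous (fun t : ℝ => logDeriv riemannZeta ((3 / 2 : ℝ) + t * I)) := by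
    rw [continuous_iff_continuousAt]
    intro t
    have h1 : ((3 / 2 : ℝ) + t * I : ℂ) ≠ 1 := by
      intro h
      have := congrArg Complex.re h
      rw [hre] at this
      norm_num at this
    have h2 : riemannZeta ((3 / 2 : ℝ) + t * I) ≠ 0 :=
      riemannZeta_ne_zero_of_one_le_re (by rw [hre]; norm_num)
    have h3 : AnalyticAt ℂ riemannZeta ((3 / 2 : ℝ) + t * I) :=
      (DifferentiableOn.analyticAt (s := {(1:ℂ)}ᶜ)
        (fun z hz => (differentiableAt_riemannZeta hz).differentiableWithinAt)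
        (isOpen_compl_singleton.mem_nhds h1))
    have h4 : ContinuousAt (logDeriv riemannZeta) ((3 / 2 : ℝ) + t * I) :=
      h3.deriv.continuousAt.div h3.continuousAt h2
    exact ContinuousAt.comp (f := fun t : ℝ => ((3 / 2 : ℝ) + t * I : ℂ)) h4 (by fun_prop)
  have hldb : ∀ t : ℝ, ‖logDeriv riemannZeta ((3 / 2 : ℝ) + t * I)‖ ≤
      ∑' n, ‖LSeries.term Lm (3 / 2 : ℝ) n‖ := by
    intro t
    rw [hld, norm_neg]
    have e : (fun n => ‖LSeries.term Lm ((3 / 2 : ℝ) + t * I) n‖) =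
        fun n => ‖LSeries.term Lm (3 / 2 : ℝ) n‖ := by
      funext n
      rw [LSeries.norm_term_eq, LSeries.norm_term_eq, hre, Complex.ofReal_re]
    have h5 := norm_tsum_le_tsum_norm (f := fun n => LSeries.term Lm ((3 / 2 : ℝ) + t * I) n)
      (by rw [e]; exact hS2)
    rw [e] at h5
    exact h5
  constructor
  · refine (hKi.norm.const_mul (∑' n, ‖LSeries.term Lm (3 / 2 : ℝ) n‖)).mono' ?_ ?_
    · exact (hldc.mul hKc).aestronglyMeasurable
    · refine Eventually.of_forall fun t => ?_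
      rw [norm_mul]
      exact mul_le_mul_of_nonneg_right (hldb t) (norm_nonneg _)
  simp only [hts] at hmain
  rw [integral_neg] at hmain
  have hint : ∀ n, n ≠ 0 → ∫ t, F n t = Lm n * ((n : ℂ) ^ (-(1 / 2 + y * I : ℂ)) *
        ((Real.pi * (if Real.log n ≤ l then φ (Real.log n) else 0) : ℝ) : ℂ)) := by
    intro n hn
    rw [← kp_term_integral hl hφ h2 y hn, ← integral_const_mul]
    congr 1
    funext t
    rw [hFe, LSeries.term_def₀ hL0, mul_assoc]
  have hTl : T ^ lam = Real.exp l := by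
    rw [hl', Real.rpow_def_of_pos (by linarith)]; ring_nf
  have hiff : ∀ n : ℕ, n ≠ 0 → ((n : ℝ) ≤ T ^ lam ↔ Real.log n ≤ l) := by
    intro n hn
    have hn1 : (0:ℝ) < n := by exact_mod_cast Nat.pos_of_ne_zero hn
    rw [hTl, Real.log_le_iff_le_exp hn1]
  have hfin : HasSum (fun n => ∫ t, F n t) (∑ n ∈ Finset.Icc 1 ⌊T ^ lam⌋₊, ∫ t, F n t) := by
    apply hasSum_sum_of_ne_finset_zero
    intro n hn
    by_cases h0 : n = 0
    · subst h0
      simp only [hFe, LSeries.term_zero, zero_mul, integral_zero]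
    · rw [hint n h0, if_neg]
      · simp
      · intro h
        apply hn
        rw [Finset.mem_Icc]
        exact ⟨Nat.one_le_iff_ne_zero.2 h0, Nat.le_floor ((hiff n h0).2 h)⟩
  have huniq := hmain.unique hfin
  have hB : ∑ n ∈ Finset.Icc 1 ⌊T ^ lam⌋₊, ∫ t, F n t = Real.pi * QP φ lam T y := by
    unfold QP
    rw [Finset.mul_sum]
    apply Finset.sum_congr rfl
    intro n hn
    rw [Finset.mem_Icc] at hn
    have hn0 : n ≠ 0 := by omega
    have hle : (n : ℝ) ≤ T ^ lam := by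
      have h6 : (0:ℝ) ≤ T ^ lam := Real.rpow_nonneg (by linarith) _
      exact (Nat.cast_le.2 hn.2).trans (Nat.floor_le h6)
    rw [hint n hn0, if_pos ((hiff n hn0).1 hle), hLm]
    push_cast
    ring
  rw [hB] at huniq
  rw [← huniq, neg_neg]

end Pool.Agent.Lib.MP_6bc78b_nt.MS.GL.H17
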