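import Pool.Agent.Lib.MP_6bc78b_nt.MS.GL.Iface
import Pool.Agent.Lib.MP_6bc78b_nt.MS.P1.Good

/-! EXG: the explicit formula with a general weight (RH). -/

set_option autoImplicit false

open Complex Filter Topology MeasureTheory Set ArithmeticFunction

namespace Pool.Agent.Lib.MP_6bc78b_nt.MS.GL.H17

open Pool.Agent.Lib.MP_6bc78b_nt Pool.Agent.Lib.MP_6bc78b_nt.LL Pool.Agent.Lib.MP_6bc78b_nt.H11
  Pool.Agent.Lib.MP_6bc78b_nt.MS.P1 Pool.Agent.Lib.MP_6bc78b_nt.MS.GL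

/-- The zero side of the explicit formula. -/
theorem zero_side_kp (hRH : RiemannHypothesis) (h1 : KphStatement) {l M : ℝ} {φ : ℝ → ℝ}
    (hl : 0 < l) (hφ : IsPhi l M φ) (y : ℝ) :
    Summable (fun γ : ℝ => (mz γ : ℝ) * ∫ ξ in (0 : ℝ)..l, φ ξ * Real.cos (ξ * (y - γ))) ∧
    Real.pi * (∑' γ : ℝ, (mz γ : ℝ) * ∫ ξ in (0 : ℝ)..l, φ ξ * Real.cos (ξ * (y - γ))) =
      (∫ t : ℝ, logDeriv xi ((3 / 2 : ℝ) + t * I) * kp φ l (1 + ((t - y : ℝ) : ℂ) * I)).re := by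
  obtain ⟨hd, hb, hsym, hI⟩ := h1 l M φ hl hφ
  have hM : 0 ≤ M := (abs_nonneg _).trans (hφ.2.2 0 le_rfl hl.le).1
  obtain ⟨k, hk⟩ : ∃ k : ℂ → ℂ, k = fun s => kp φ l (s - (1 / 2 + y * I)) := ⟨_, rfl⟩
  have hke : ∀ s, k s = kp φ l (s - (1 / 2 + y * I)) := fun s => by rw [hk]
  have hkd : Differentiable ℂ k := by
    rw [hk]
    exact hd.comp (by fun_prop : Differentiable ℂ fun s : ℂ => s - (1 / 2 + y * I))
  obtain ⟨A, hA⟩ : ∃ A : ℝ, A = 8 * M * (1 + l) * Real.exp l := ⟨_, rfl⟩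
  have hA0 : 0 ≤ A := by rw [hA]; positivity
  have hkC : ∀ s : ℂ, -(1/2) ≤ s.re → s.re ≤ 3/2 →
      ‖k s‖ ≤ (A * (2 * (1 + y ^ 2))) / (1 + s.im ^ 2) := by
    intro s h1 h2
    rw [hke]
    have hre : (s - (1 / 2 + y * I)).re = s.re - 1 / 2 := by simp
    have him : (s - (1 / 2 + y * I)).im = s.im - y := by simp
    have h3 := hb (s - (1 / 2 + y * I)) (by rw [hre, abs_le]; constructor <;> linarith)
    rw [him, ← hA] at h3
    refine h3.trans ?_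
    rw [div_le_div_iff₀ (by positivity) (by positivity), mul_assoc]
    apply mul_le_mul_of_nonneg_left _ hA0
    have e : s.im = (s.im - y) + y := by ring
    obtain ⟨u, hu⟩ : ∃ u, u = s.im - y := ⟨_, rfl⟩
    rw [← hu] at e ⊢
    rw [e]
    nlinarith [sq_nonneg (u - y), mul_nonneg (sq_nonneg u) (sq_nonneg y)]
  obtain ⟨hs1, -, -, hs4⟩ := zero_sum hRH hkd hkC (w := 1) (by norm_num) le_rfl
  have e32 : (1 / 2 + 1 : ℝ) = 3 / 2 := by norm_num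
  rw [e32] at hs4
  obtain ⟨J, hJ⟩ : ∃ J : ℂ, J = ∫ t : ℝ, logDeriv xi ((3 / 2 : ℝ) + t * I) *
    kp φ l (1 + ((t - y : ℝ) : ℂ) * I) := ⟨_, rfl⟩
  have hJ1 : (∫ t : ℝ, logDeriv xi ((3 / 2 : ℝ) + t * I) * k ((3 / 2 : ℝ) + t * I)) = J := by
    rw [hJ]
    congr 1
    funext t
    rw [hke]
    congr 2
    push_cast; ring
  have hJ2 : (∫ t : ℝ, logDeriv xi ((3 / 2 : ℝ) + t * I) * k (1 - ((3 / 2 : ℝ) + t * I))) =
      (starRingEnd ℂ) J := by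
    rw [hJ, ← integral_conj, ← integral_neg_eq_self]
    congr 1
    funext t
    rw [map_mul, ← logDeriv_xi_conj, ← (hsym _).2, hke, ← (hsym (1 - _ - _)).1]
    have e1 : (starRingEnd ℂ) ((3 / 2 : ℝ) + t * I) = (3 / 2 : ℝ) + ((-t : ℝ) : ℂ) * I := by
      rw [map_add, map_mul, Complex.conj_ofReal, Complex.conj_ofReal, Complex.conj_I]
      push_cast; ring
    have e2 : (starRingEnd ℂ) (1 + ((t - y : ℝ) : ℂ) * I) =
        -(1 - ((3 / 2 : ℝ) + ((-t : ℝ) : ℂ) * I) - (1 / 2 + y * I)) := by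
      apply Complex.ext
      · simp; norm_num
      · simp
    rw [e1, e2]
  rw [hJ1, hJ2] at hs4
  have hterm : ∀ γ : ℝ, (zeroMult γ : ℂ) * k (1 / 2 + γ * I) =
      (((mz γ : ℝ) * ∫ ξ in (0 : ℝ)..l, φ ξ * Real.cos (ξ * (y - γ)) : ℝ) : ℂ) := by
    intro γ
    rw [hke, show (1 / 2 + γ * I : ℂ) - (1 / 2 + y * I) = ((γ - y : ℝ) : ℂ) * I by push_cast; ring,
      hI, mz_eq]
    have e3 : (∫ ξ in (0 : ℝ)..l, φ ξ * Real.cos (ξ * (γ - y))) =
        ∫ ξ in (0 : ℝ)..l, φ ξ * Real.cos (ξ * (y - γ)) := by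
      congr 1
      funext ξ
      rw [show ξ * (γ - y) = -(ξ * (y - γ)) by ring, Real.cos_neg]
    rw [e3]
    push_cast
    ring
  have hs1' : Summable (fun γ : ℝ =>
      (((mz γ : ℝ) * ∫ ξ in (0 : ℝ)..l, φ ξ * Real.cos (ξ * (y - γ)) : ℝ) : ℂ)) := by
    refine hs1.congr ?_
    intro γ
    exact hterm γ
  have hsr := Complex.summable_ofReal.1 hs1'
  refine ⟨hsr, ?_⟩
  have hts : (∑' γ : ℝ, (zeroMult γ : ℂ) * k (1 / 2 + γ * I)) =
      ((∑' γ : ℝ, (mz γ : ℝ) * ∫ ξ in (0 : ℝ)..l, φ ξ * Real.cos (ξ * (y - γ)) : ℝ) : ℂ) := by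
    rw [Complex.ofReal_tsum]
    congr 1
    funext γ
    exact hterm γ
  rw [hts] at hs4
  have h2 := congrArg Complex.re hs4
  rw [show (2 * Real.pi : ℂ) = ((2 * Real.pi : ℝ) : ℂ) by push_cast; ring,
    ← Complex.ofReal_mul, Complex.ofReal_re, Complex.add_re, Complex.conj_re] at h2
  rw [← hJ]
  linarith

/-- **EXG** -/
theorem exg (hRH : RiemannHypothesis) (h1 : KphStatement) (h2 : EdiStatement)
    (h3 : EgaStatement) : ExgStatement := by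
  intro δ0 hδ hδ1
  obtain ⟨C, hC, hg⟩ := h3 δ0 hδ hδ1
  refine ⟨C, hC, fun T lam M y φ hT hlT hlam1 hy1 hy2 hφ => ?_⟩
  have hT0 : 0 < T := by linarith
  have hlogT : 1 ≤ Real.log T := by
    rw [Real.le_log_iff_exp_le hT0]
    exact Real.exp_one_lt_d9.le.trans (by linarith)
  have hlogT0 : 0 < Real.log T := by linarith
  have hlam0 : 0 < lam := by
    by_contra h
    rw [not_lt] at h
    have := mul_nonpos_of_nonpos_of_nonneg h hlogT0.le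
    linarith
  have hl : 0 < lam * Real.log T := by linarith
  have hM : 0 ≤ M := (abs_nonneg _).trans (hφ.2.2 0 le_rfl hl.le).1
  obtain ⟨hs, hz⟩ := zero_side_kp hRH h1 hl hφ y
  obtain ⟨hg1, hg2⟩ := hg T lam M y φ hT hlT hlam1 hy1 hy2 hφ
  obtain ⟨hd1, hd2⟩ := h2 T lam M y φ (by linarith) hlam0 hφ
  refine ⟨hs, ?_⟩
  have hre : ∀ t : ℝ, ((3 / 2 : ℝ) + t * I : ℂ).re = 3 / 2 := fun t => by simp
  have hsplit : (∫ t : ℝ, logDeriv xi ((3 / 2 : ℝ) + t * I) *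
      kp φ (lam * Real.log T) (1 + ((t - y : ℝ) : ℂ) * I)) =
      (∫ t : ℝ, gPart ((3 / 2 : ℝ) + t * I) *
        kp φ (lam * Real.log T) (1 + ((t - y : ℝ) : ℂ) * I)) +
      ∫ t : ℝ, logDeriv riemannZeta ((3 / 2 : ℝ) + t * I) *
        kp φ (lam * Real.log T) (1 + ((t - y : ℝ) : ℂ) * I) := by
    rw [← integral_add hg1 hd1]
    congr 1
    funext t
    have hne1 : ((3 / 2 : ℝ) + t * I : ℂ) ≠ 1 := by
      intro h
      have := congrArg Complex.re h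
      rw [hre] at this
      norm_num at this
    rw [logDeriv_xi_eq (by rw [hre]; norm_num) hne1
      (riemannZeta_ne_zero_of_one_le_re (by rw [hre]; norm_num))]
    ring
  rw [hsplit, hd2, Complex.add_re, Complex.neg_re, Complex.re_ofReal_mul] at hz
  have hp := Real.pi_gt_three
  have hp0 := Real.pi_pos
  obtain ⟨Sg, hSg⟩ : ∃ S : ℝ, S = ∑' γ : ℝ, (mz γ : ℝ) *
    ∫ ξ in (0 : ℝ)..(lam * Real.log T), φ ξ * Real.cos (ξ * (y - γ)) := ⟨_, rfl⟩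
  rw [← hSg] at hz ⊢
  have e : Real.pi * (Sg - 1 / 2 * Real.log y * φ 0 + (QP φ lam T y).re) =
      (∫ t : ℝ, gPart ((3 / 2 : ℝ) + t * I) *
        kp φ (lam * Real.log T) (1 + ((t - y : ℝ) : ℂ) * I)).re -
        Real.pi / 2 * Real.log y * φ 0 := by
    linear_combination hz
  rw [← e, abs_mul, abs_of_pos hp0] at hg2
  have h5 : |Sg - 1 / 2 * Real.log y * φ 0 + (QP φ lam T y).re| ≤
      Real.pi * |Sg - 1 / 2 * Real.log y * φ 0 + (QP φ lam T y).re| := by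
    nlinarith [abs_nonneg (Sg - 1 / 2 * Real.log y * φ 0 + (QP φ lam T y).re)]
  exact h5.trans hg2

end Pool.Agent.Lib.MP_6bc78b_nt.MS.GL.H17
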