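import Pool.Agent.Lib.MP_6bc78b_nt.MS.GL.Iface

/-! KIN: Fourier inversion for the kernel `kp` on the line `Re w = 1`. -/

set_option autoImplicit false

open Complex Filter Topology MeasureTheory Set
open scoped FourierTransform

namespace Pool.Agent.Lib.MP_6bc78b_nt.MS.GL.H17

open Pool.Agent.Lib.MP_6bc78b_nt.MS.GL

/-- The even extension of the weight. -/
noncomputable def ph (φ : ℝ → ℝ) (l v : ℝ) : ℝ := if |v| ≤ l then φ |v| else 0

lemma ph_cont {φ : ℝ → ℝ} {l : ℝ} (hφ : Continuous φ) (h0 : φ l = 0) : Continuous (ph φ l) := by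
  unfold ph
  apply Continuous.if_le
  · exact hφ.comp continuous_abs
  · exact continuous_const
  · exact continuous_abs
  · exact continuous_const
  · intro x hx
    rw [hx, h0]

lemma ph_zero {φ : ℝ → ℝ} {l v : ℝ} (h0 : φ l = 0) (h : l ≤ |v|) : ph φ l v = 0 := by
  unfold ph
  split_ifs with h1
  · rw [le_antisymm h1 h, h0]
  · rfl

lemma ph_exp_cont {φ : ℝ → ℝ} {l : ℝ} (hφ : Continuous φ) (h0 : φ l = 0) :
    Continuous (fun v : ℝ => (ph φ l v : ℂ) * Complex.exp v) := by
  have := ph_cont hφ h0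
  fun_prop

lemma ph_exp_integrable {φ : ℝ → ℝ} {l : ℝ} (hφ : Continuous φ) (h0 : φ l = 0) :
    Integrable (fun v : ℝ => (ph φ l v : ℂ) * Complex.exp v) := by
  apply (ph_exp_cont hφ h0).integrable_of_hasCompactSupport
  apply HasCompactSupport.intro (isCompact_Icc (a := -l) (b := l))
  intro v hv
  have h1 : l ≤ |v| := by
    rw [mem_Icc, not_and_or, not_le, not_le] at hv
    rcases hv with h | h
    · have := neg_le_abs v
      linarith
    · have := le_abs_self v
      linarith
  simp [ph_zero h0 h1]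

/-- The Laplace transform of the even extension. -/
lemma ph_laplace {φ : ℝ → ℝ} {l : ℝ} (hl : 0 < l) (hφ : Continuous φ) (h0 : φ l = 0) (w : ℂ) :
    ∫ v : ℝ, (ph φ l v : ℂ) * Complex.exp (v * w) = 2 * kp φ l w := by
  have hc : Continuous (fun v : ℝ => (ph φ l v : ℂ) * Complex.exp (v * w)) := by
    have := ph_cont hφ h0
    fun_prop
  have h1 : ∫ v in (-l)..l, (ph φ l v : ℂ) * Complex.exp (v * w) =
      ∫ v : ℝ, (ph φ l v : ℂ) * Complex.exp (v * w) := by
    apply intervalIntegral.integral_eq_integral_of_support_subset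
    intro v hv
    rw [Function.mem_support] at hv
    rw [mem_Ioc]
    by_contra hcon
    apply hv
    have h2 : l ≤ |v| := by
      rw [not_and_or, not_lt, not_le] at hcon
      rcases hcon with h | h
      · have := neg_le_abs v
        linarith
      · have := le_abs_self v
        linarith
    rw [ph_zero h0 h2]
    simp
  rw [← h1, ← intervalIntegral.integral_add_adjacent_intervals (b := 0)
    (hc.intervalIntegrable _ _) (hc.intervalIntegrable _ _)]
  have h2 : ∫ v in (-l)..0, (ph φ l v : ℂ) * Complex.exp (v * w) =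
      ∫ v in (0 : ℝ)..l, (ph φ l (-v) : ℂ) * Complex.exp (((-v : ℝ) : ℂ) * w) := by
    rw [intervalIntegral.integral_comp_neg
      (fun v : ℝ => (ph φ l v : ℂ) * Complex.exp (v * w))]
    simp
  have hc2 : Continuous (fun v : ℝ => (ph φ l (-v) : ℂ) * Complex.exp (((-v : ℝ) : ℂ) * w)) :=
    hc.comp continuous_neg
  rw [h2, ← intervalIntegral.integral_add (hc2.intervalIntegrable _ _)
    (hc.intervalIntegrable _ _)]
  unfold kp
  rw [← intervalIntegral.integral_const_mul]
  apply intervalIntegral.integral_congr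
  intro v hv
  rw [uIcc_of_le hl.le, mem_Icc] at hv
  have e1 : ph φ l v = φ v := by
    unfold ph
    rw [abs_of_nonneg hv.1, if_pos hv.2]
  have e2 : ph φ l (-v) = φ v := by
    unfold ph
    rw [abs_neg, abs_of_nonneg hv.1, if_pos hv.2]
  simp only []
  rw [e1, e2, Complex.cosh]
  push_cast
  ring_nf

lemma fourier_ph {φ : ℝ → ℝ} {l : ℝ} (hl : 0 < l) (hφ : Continuous φ) (h0 : φ l = 0) (ξ : ℝ) :
    𝓕 (fun v : ℝ => (ph φ l v : ℂ) * Complex.exp v) ξ =
      2 * kp φ l (1 + ((-2 * Real.pi * ξ : ℝ) : ℂ) * I) := by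
  rw [Real.fourier_real_eq_integral_exp_smul, ← ph_laplace hl hφ h0]
  congr 1
  funext v
  rw [smul_eq_mul, mul_left_comm, ← Complex.exp_add]
  congr 2
  push_cast
  ring

/-- Fourier inversion on the line `Re w = 1`. -/
lemma ph_inv {φ : ℝ → ℝ} {l : ℝ} (hl : 0 < l) (hφ : Continuous φ) (h0 : φ l = 0)
    (hK : Integrable (fun x : ℝ => kp φ l (1 + x * I))) (v : ℝ) :
    ∫ x : ℝ, Complex.exp (-(v : ℂ) * (1 + x * I)) * kp φ l (1 + x * I) =
      Real.pi * (ph φ l v : ℂ) := by
  have hF : 𝓕 (fun v : ℝ => (ph φ l v : ℂ) * Complex.exp v) = fun ξ : ℝ =>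
      2 * kp φ l (1 + ((-2 * Real.pi * ξ : ℝ) : ℂ) * I) := by
    funext ξ; exact fourier_ph hl hφ h0 ξ
  have hFi : Integrable (𝓕 (fun v : ℝ => (ph φ l v : ℂ) * Complex.exp v)) := by
    rw [hF]
    have h := (hK.comp_mul_left' (R := -2 * Real.pi)
      (by have := Real.pi_pos; nlinarith)).const_mul 2
    exact h
  have h := congrFun ((ph_exp_cont hφ h0).fourierInv_fourier_eq (ph_exp_integrable hφ h0) hFi) v
  rw [hF, Real.fourierInv_eq'] at h
  have hsub := Measure.integral_comp_mul_left (fun x : ℝ => Complex.exp (-(v : ℂ) * (x * I)) *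
    (2 * kp φ l (1 + x * I))) (-2 * Real.pi)
  have e1 : ∫ x : ℝ, Complex.exp ((2 * Real.pi * inner ℝ x v : ℝ) * I) •
      (2 * kp φ l (1 + ((-2 * Real.pi * x : ℝ) : ℂ) * I)) =
      ∫ x : ℝ, Complex.exp (-(v : ℂ) * (((-2 * Real.pi * x : ℝ) : ℂ) * I)) *
        (2 * kp φ l (1 + ((-2 * Real.pi * x : ℝ) : ℂ) * I)) := by
    congr 1
    funext x
    rw [smul_eq_mul]
    congr 2
    simp
    ring
  have hv : ∫ x : ℝ, Complex.exp (-(v : ℂ) * (1 + x * I)) * kp φ l (1 + x * I) =
      Complex.exp (-(v : ℂ)) / 2 * ∫ x : ℝ, Complex.exp (-(v : ℂ) * (x * I)) *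
        (2 * kp φ l (1 + x * I)) := by
    rw [← integral_const_mul]
    congr 1
    funext x
    have : Complex.exp (-(v : ℂ) * (1 + x * I)) =
        Complex.exp (-(v : ℂ)) * Complex.exp (-(v : ℂ) * (x * I)) := by
      rw [← Complex.exp_add]
      congr 1
      ring
    rw [this]
    ring
  have habs : |(-2 * Real.pi)⁻¹| = (2 * Real.pi)⁻¹ := by
    rw [abs_inv, show (-2 * Real.pi) = -(2 * Real.pi) by ring, abs_neg,
      abs_of_pos (by have := Real.pi_pos; positivity)]
  rw [e1] at h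
  rw [habs] at hsub
  rw [hsub] at h
  have hpi : (2 * Real.pi : ℂ) ≠ 0 := by
    have := Real.pi_pos.ne'
    exact mul_ne_zero two_ne_zero (by exact_mod_cast this)
  have h2 : ∫ x : ℝ, Complex.exp (-(v : ℂ) * (x * I)) * (2 * kp φ l (1 + x * I)) =
      2 * Real.pi * ((ph φ l v : ℂ) * Complex.exp v) := by
    rw [← h, Complex.real_smul]
    push_cast
    rw [← mul_assoc, mul_inv_cancel₀ hpi, one_mul]
  rw [hv, h2]
  have : Complex.exp (-(v : ℂ)) * Complex.exp v = 1 := by
    rw [← Complex.exp_add]; simp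
  linear_combination (Real.pi * (ph φ l v : ℂ)) * this

/-- **KIN** -/
theorem kin (h1 : KphStatement) : KinStatement := by
  intro l M φ hl hφ
  obtain ⟨hd, hb, -, -⟩ := h1 l M φ hl hφ
  have hcφ : Continuous φ := hφ.1.continuous
  have hK : Integrable (fun x : ℝ => kp φ l (1 + x * I)) := by
    have hi : Integrable (fun x : ℝ => (8 * M * (1 + l) * Real.exp l) / (1 + x ^ 2)) := by
      have := integrable_inv_one_add_sq.const_mul (8 * M * (1 + l) * Real.exp l)
      simpa [div_eq_mul_inv] using this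
    refine hi.mono' (hd.continuous.comp (by fun_prop)).aestronglyMeasurable
      (Eventually.of_forall fun x => ?_)
    have h3 := hb (1 + x * I) (by simp)
    have him : (1 + x * I : ℂ).im = x := by simp
    rwa [him] at h3
  refine ⟨hK, fun v hv => ?_⟩
  rw [ph_inv hl hcφ hφ.2.1 hK v]
  unfold ph
  rw [abs_of_nonneg hv]
  push_cast
  rfl

end Pool.Agent.Lib.MP_6bc78b_nt.MS.GL.H17
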