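import Pool.Agent.Lib.MP_6bc78b_nt.MS.GL.Iface

/-! LX1: integration of the Poisson sum. -/

set_option autoImplicit false

open Complex Filter Topology MeasureTheory Set

namespace Pool.Agent.Lib.MP_6bc78b_nt.MS.GL.H17

open Pool.Agent.Lib.MP_6bc78b_nt Pool.Agent.Lib.MP_6bc78b_nt.LL Pool.Agent.Lib.MP_6bc78b_nt.MS.GL

/-- The derivative of the logarithm of the modulus. -/
lemma hasDerivAt_log_modulus {g : ℝ → ℂ} {g' : ℂ} {t : ℝ} (hg : HasDerivAt g g' t)
    (h0 : g t ≠ 0) : HasDerivAt (fun s => Real.log ‖g s‖) (g' / g t).re t := by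
  have hr : HasDerivAt (fun s => (g s).re) g'.re t :=
    (Complex.reCLM.hasFDerivAt.comp_hasDerivAt t hg)
  have hi : HasDerivAt (fun s => (g s).im) g'.im t :=
    (Complex.imCLM.hasFDerivAt.comp_hasDerivAt t hg)
  have hn : HasDerivAt (fun s => Complex.normSq (g s))
      (g'.re * (g t).re + (g t).re * g'.re + (g'.im * (g t).im + (g t).im * g'.im)) t := by
    simp only [Complex.normSq_apply]
    exact (hr.mul hr).add (hi.mul hi)
  have hpos : Complex.normSq (g t) ≠ 0 := by
    rw [Ne, Complex.normSq_eq_zero]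
    exact h0
  have hl := (hn.log hpos).const_mul (1 / 2 : ℝ)
  have e : (fun s => Real.log ‖g s‖) = fun s => 1 / 2 * Real.log (Complex.normSq (g s)) := by
    funext s
    rw [Complex.normSq_eq_norm_sq, Real.log_pow]
    push_cast
    ring
  have e2 : (g' / g t).re = 1 / 2 * ((g'.re * (g t).re + (g t).re * g'.re +
      (g'.im * (g t).im + (g t).im * g'.im)) / Complex.normSq (g t)) := by
    rw [Complex.div_re]
    field_simp
    ring
  rw [e, e2]
  exact hl

lemma xi_line_deriv (y t : ℝ) : HasDerivAt (fun δ : ℝ => xi (1 / 2 + δ + y * I))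
    (deriv xi (1 / 2 + t + y * I)) t := by
  have h1 : HasDerivAt (fun δ : ℝ => (1 / 2 + (δ : ℂ) + y * I : ℂ)) 1 t := by
    have := ((Complex.ofRealCLM.hasDerivAt (x := t)).const_add (1 / 2 : ℂ)).add_const
      ((y : ℂ) * I)
    simpa using this
  have h2 := (differentiable_xi (1 / 2 + t + y * I)).hasDerivAt
  have h3 := HasDerivAt.comp t h2 h1
  rw [mul_one] at h3
  exact h3

/-- `log |xi|` on the horizontal line. -/
lemma log_xi_deriv (h : PfrStatement) (y t : ℝ) (ht : 0 < t) (ht1 : t < 1) :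
    HasDerivAt (fun δ : ℝ => Real.log ‖xi (1 / 2 + δ + y * I)‖) (PD t y) t := by
  obtain ⟨-, h2, h3⟩ := h y t ht ht1
  have h4 := hasDerivAt_log_modulus (xi_line_deriv y t) h2
  rw [← h3, logDeriv_apply]
  exact h4

lemma PD_cont (h : PfrStatement) (y : ℝ) {a b : ℝ} (ha : 0 < a) (hb : b < 1) :
    ContinuousOn (fun δ => PD δ y) (Icc a b) := by
  have h1 : ContinuousOn (fun δ : ℝ => (logDeriv xi (1 / 2 + δ + y * I)).re) (Icc a b) := by
    apply Complex.continuous_re.comp_continuousOn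
    have e : (fun δ : ℝ => logDeriv xi (1 / 2 + δ + y * I)) =
        fun δ : ℝ => deriv xi (1 / 2 + δ + y * I) / xi (1 / 2 + δ + y * I) := by
      funext δ
      rw [logDeriv_apply]
    rw [e]
    apply ContinuousOn.div
    · exact ((differentiable_xi.contDiff (n := 1)).continuous_deriv_one.comp
        (by fun_prop)).continuousOn
    · exact (differentiable_xi.continuous.comp (by fun_prop)).continuousOn
    · intro δ hδ
      exact (h y δ (lt_of_lt_of_le ha hδ.1) (lt_of_le_of_lt hδ.2 hb)).2.1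
  refine h1.congr ?_
  intro δ hδ
  exact (h y δ (lt_of_lt_of_le ha hδ.1) (lt_of_le_of_lt hδ.2 hb)).2.2.symm

/-- The integral of the Poisson sum. -/
lemma int_PD (h : PfrStatement) (y : ℝ) {a b : ℝ} (ha : 0 < a) (hab : a ≤ b) (hb : b < 1) :
    ∫ δ in a..b, PD δ y =
      Real.log ‖xi (1 / 2 + b + y * I)‖ - Real.log ‖xi (1 / 2 + a + y * I)‖ := by
  apply intervalIntegral.integral_eq_sub_of_hasDerivAt
    (f := fun δ : ℝ => Real.log ‖xi (1 / 2 + δ + y * I)‖)
  · intro t ht
    rw [uIcc_of_le hab] at ht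
    exact log_xi_deriv h y t (lt_of_lt_of_le ha ht.1) (lt_of_le_of_lt ht.2 hb)
  · apply ContinuousOn.intervalIntegrable
    rw [uIcc_of_le hab]
    exact PD_cont h y ha hb

/-- **LX1** -/
theorem lx1 (h : PfrStatement) : Lx1Statement := by
  intro y δ1 h0 h1
  refine ⟨PD_cont h y h0 (by norm_num), ?_⟩
  rw [int_PD h y h0 h1.le (by norm_num)]

end Pool.Agent.Lib.MP_6bc78b_nt.MS.GL.H17
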