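import Pool.Agent.Lib.MP_6bc78b_nt.MS.GL.H17.Lx1
import Pool.Agent.Lib.MP_6bc78b_nt.MS.P1.Good

/-! LX2: the derivative of `ξ` at a simple zero (RH enters through PFR only). -/

set_option autoImplicit false

open Complex Filter Topology MeasureTheory Set

namespace Pool.Agent.Lib.MP_6bc78b_nt.MS.GL.H17

open Pool.Agent.Lib.MP_6bc78b_nt Pool.Agent.Lib.MP_6bc78b_nt.LL Pool.Agent.Lib.MP_6bc78b_nt.H11
  Pool.Agent.Lib.MP_6bc78b_nt.MS.P1 Pool.Agent.Lib.MP_6bc78b_nt.MS.GL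

/-- The integral of one term. -/
lemma int_term {a b : ℝ} (ha : 0 < a) (hab : a ≤ b) (u : ℝ) :
    ∫ δ in a..b, δ / (δ ^ 2 + u ^ 2) =
      1 / 2 * Real.log ((b ^ 2 + u ^ 2) / (a ^ 2 + u ^ 2)) := by
  have h1 : ∫ δ in a..b, δ / (δ ^ 2 + u ^ 2) =
      1 / 2 * Real.log (b ^ 2 + u ^ 2) - 1 / 2 * Real.log (a ^ 2 + u ^ 2) := by
    apply intervalIntegral.integral_eq_sub_of_hasDerivAt
      (f := fun δ : ℝ => 1 / 2 * Real.log (δ ^ 2 + u ^ 2))
    · intro t ht
      rw [uIcc_of_le hab] at ht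
      have ht0 : 0 < t := lt_of_lt_of_le ha ht.1
      have hp : t ^ 2 + u ^ 2 ≠ 0 := by positivity
      have h2 : HasDerivAt (fun δ : ℝ => δ ^ 2 + u ^ 2) (2 * t) t := by
        have := ((hasDerivAt_id t).pow 2).add_const (u ^ 2)
        simpa using this
      have h3 := (h2.log hp).const_mul (1 / 2 : ℝ)
      have e : 1 / 2 * (2 * t / (t ^ 2 + u ^ 2)) = t / (t ^ 2 + u ^ 2) := by
        ring
      rw [e] at h3
      exact h3
    · apply ContinuousOn.intervalIntegrable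
      rw [uIcc_of_le hab]
      apply ContinuousOn.div (by fun_prop) (by fun_prop)
      intro t ht
      have ht0 : 0 < t := lt_of_lt_of_le ha ht.1
      positivity
  have hb : 0 < b := lt_of_lt_of_le ha hab
  rw [h1, Real.log_div (by positivity) (by positivity)]
  ring

/-- comparison of the kernels. -/
lemma ker_le {a b δ : ℝ} (ha : 0 < a) (h1 : a ≤ δ) (h2 : δ ≤ b) (u : ℝ) :
    δ / (δ ^ 2 + u ^ 2) ≤ b ^ 2 / a ^ 2 * (b / (b ^ 2 + u ^ 2)) := by
  have hδ : 0 < δ := lt_of_lt_of_le ha h1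
  have hb : 0 < b := lt_of_lt_of_le hδ h2
  rw [div_mul_div_comm, div_le_div_iff₀ (by positivity) (by positivity)]
  have h3 : a ^ 2 * (b ^ 2 + u ^ 2) ≤ b ^ 2 * (δ ^ 2 + u ^ 2) := by
    have h4 : a ^ 2 ≤ δ ^ 2 := by gcongr
    have h5 : a ^ 2 ≤ b ^ 2 := by gcongr; linarith
    nlinarith [mul_le_mul_of_nonneg_right h5 (sq_nonneg u),
      mul_le_mul_of_nonneg_left h4 (sq_nonneg b)]
  calc δ * (a ^ 2 * (b ^ 2 + u ^ 2)) ≤ b * (b ^ 2 * (δ ^ 2 + u ^ 2)) := by
        apply mul_le_mul h2 h3 (by positivity) hb.le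
    _ = b ^ 2 * b * (δ ^ 2 + u ^ 2) := by ring

/-- Termwise integration of the Poisson sum. -/
lemma int_PD_tsum (h : PfrStatement) (y : ℝ) {a b : ℝ} (ha : 0 < a) (hab : a ≤ b) (hb : b < 1) :
    Summable (fun γ : ℝ => (mz γ : ℝ) *
      (1 / 2 * Real.log ((b ^ 2 + (y - γ) ^ 2) / (a ^ 2 + (y - γ) ^ 2)))) ∧
    ∫ δ in a..b, PD δ y = ∑' γ : ℝ, (mz γ : ℝ) *
      (1 / 2 * Real.log ((b ^ 2 + (y - γ) ^ 2) / (a ^ 2 + (y - γ) ^ 2))) := by
  have hb0 : 0 < b := lt_of_lt_of_le ha hab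
  obtain ⟨hsb, -, -⟩ := h y b hb0 hb
  obtain ⟨S, hS⟩ : ∃ S : Set ℝ, S = Function.support (fun γ : ℝ => (mz γ : ℝ)) := ⟨_, rfl⟩
  have hScount : S.Countable := by
    refine hsb.countable_support.mono ?_
    intro γ hγ
    rw [hS, Function.mem_support] at hγ
    rw [Function.mem_support]
    have : 0 < b ^ 2 + (y - γ) ^ 2 := by positivity
    exact mul_ne_zero hγ (by positivity)
  have : Countable S := hScount.to_subtype
  obtain ⟨μ, hμ⟩ : ∃ μ : Measure ℝ, μ = volume.restrict (Ioc a b) := ⟨_, rfl⟩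
  obtain ⟨F, hF⟩ : ∃ F : ℝ → ℝ → ℝ, F = fun γ δ => (mz γ : ℝ) * (δ / (δ ^ 2 + (y - γ) ^ 2)) :=
    ⟨_, rfl⟩
  have hFe : ∀ γ δ, F γ δ = (mz γ : ℝ) * (δ / (δ ^ 2 + (y - γ) ^ 2)) := fun γ δ => by rw [hF]
  have hFcont : ∀ γ, ContinuousOn (F γ) (Icc a b) := by
    intro γ
    rw [hF]
    apply ContinuousOn.mul continuousOn_const
    apply ContinuousOn.div (by fun_prop) (by fun_prop)
    intro t ht
    have ht0 : 0 < t := lt_of_lt_of_le ha ht.1
    positivity
  have hFint : ∀ γ, Integrable (F γ) μ := by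
    intro γ
    rw [hμ]
    exact ((hFcont γ).integrableOn_compact isCompact_Icc).mono_set Ioc_subset_Icc_self
  have hFnn : ∀ γ δ, δ ∈ Ioc a b → 0 ≤ F γ δ := by
    intro γ δ hδ
    rw [hFe]
    have : 0 < δ := lt_trans ha hδ.1
    positivity
  have hInt : ∀ γ, ∫ δ, F γ δ ∂μ = (mz γ : ℝ) *
      (1 / 2 * Real.log ((b ^ 2 + (y - γ) ^ 2) / (a ^ 2 + (y - γ) ^ 2))) := by
    intro γ
    rw [hμ, ← intervalIntegral.integral_of_le hab, ← int_term ha hab (y - γ),
      ← intervalIntegral.integral_const_mul]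
    simp only [hFe]
  have hnorm : ∀ γ, ∫ δ, ‖F γ δ‖ ∂μ = ∫ δ, F γ δ ∂μ := by
    intro γ
    rw [hμ]
    apply setIntegral_congr_fun measurableSet_Ioc
    intro δ hδ
    exact Real.norm_of_nonneg (hFnn γ δ hδ)
  have hnn : ∀ γ, 0 ≤ ∫ δ, F γ δ ∂μ := by
    intro γ
    rw [hμ]
    exact setIntegral_nonneg measurableSet_Ioc (fun δ hδ => hFnn γ δ hδ)
  have hle : ∀ γ, ∫ δ, F γ δ ∂μ ≤
      (b - a) * (b ^ 2 / a ^ 2) * ((mz γ : ℝ) * (b / (b ^ 2 + (y - γ) ^ 2))) := by
    intro γ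
    have h1 : ∫ δ, F γ δ ∂μ ≤
        ∫ δ, (mz γ : ℝ) * (b ^ 2 / a ^ 2 * (b / (b ^ 2 + (y - γ) ^ 2))) ∂μ := by
      rw [hμ]
      apply setIntegral_mono_on
      · have := hFint γ
        rw [hμ] at this
        exact this
      · apply (integrableOn_const (by simp)).congr_fun (fun _ _ => rfl) measurableSet_Ioc
      · exact measurableSet_Ioc
      · intro δ hδ
        rw [hFe]
        apply mul_le_mul_of_nonneg_left _ (Nat.cast_nonneg _)
        exact ker_le ha hδ.1.le hδ.2 _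
    refine h1.trans (le_of_eq ?_)
    rw [hμ, MeasureTheory.integral_const]
    simp only [measureReal_restrict_apply_univ, Real.volume_real_Ioc, smul_eq_mul]
    rw [max_eq_left (by linarith)]
    ring
  have hsum : Summable (fun γ : ℝ => ∫ δ, F γ δ ∂μ) := by
    apply Summable.of_nonneg_of_le hnn hle
    exact hsb.mul_left _
  constructor
  · refine hsum.congr ?_
    intro γ
    exact hInt γ
  have hmain := hasSum_integral_of_summable_integral_norm (μ := μ) (F := fun γ : S => F (γ : ℝ))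
    (fun γ => hFint γ) (by
      have h1 := hsum.subtype S
      refine h1.congr ?_
      intro γ
      exact (hnorm γ.1).symm)
  have hPD : ∀ δ ∈ Ioc a b, ∑' γ : S, F (γ : ℝ) δ = PD δ y := by
    intro δ _
    rw [tsum_subtype_eq_of_support_subset (f := fun γ : ℝ => F γ δ)]
    · unfold PD
      simp only [hFe]
    · intro γ hγ
      rw [Function.mem_support, hFe] at hγ
      rw [hS, Function.mem_support]
      exact left_ne_zero_of_mul hγ
  have e1 : ∫ δ, ∑' γ : S, F (γ : ℝ) δ ∂μ = ∫ δ in a..b, PD δ y := by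
    rw [hμ, intervalIntegral.integral_of_le hab]
    exact setIntegral_congr_fun measurableSet_Ioc hPD
  rw [e1] at hmain
  rw [← hmain.tsum_eq, tsum_subtype_eq_of_support_subset (f := fun γ : ℝ => ∫ δ, F γ δ ∂μ)]
  · congr 1
    funext γ
    exact hInt γ
  · intro γ hγ
    rw [Function.mem_support, hInt] at hγ
    rw [hS, Function.mem_support]
    exact left_ne_zero_of_mul hγ

/-- Summability of the logarithmic sum. -/
lemma sl_summable (h : PfrStatement) (y δ1 : ℝ) (h0 : 0 < δ1) (h1 : δ1 < 1) :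
    Summable (fun γ : ℝ => if γ = y then 0 else
      (mz γ : ℝ) * Real.log (1 + δ1 ^ 2 / (y - γ) ^ 2)) := by
  obtain ⟨hs, -, -⟩ := h y δ1 h0 h1
  have hbd : Summable (fun γ : ℝ => 2 * δ1 * ((mz γ : ℝ) * (δ1 / (δ1 ^ 2 + (y - γ) ^ 2)))) :=
    hs.mul_left _
  apply Summable.of_norm_bounded_eventually hbd
  have hfin := zeros_in_compact_finite (|y| + 1)
  rw [Filter.eventually_cofinite]
  apply hfin.subset
  intro γ hγ
  rw [mem_ofPred_eq] at hγ ⊢
  by_contra hcon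
  apply hγ
  by_cases hy : γ = y
  · rw [if_pos hy, norm_zero]
    positivity
  rw [if_neg hy]
  by_cases hz : riemannZeta (1 / 2 + γ * I) = 0
  · have hg : |y| + 1 < |γ| := by
      by_contra h'
      exact hcon ⟨not_lt.1 h', hz⟩
    have hu : 1 ≤ (y - γ) ^ 2 := by
      have h2 : |γ| - |y| ≤ |γ - y| := abs_sub_abs_le_abs_sub γ y
      have h3 : 1 ≤ |γ - y| := by linarith
      rw [show (y - γ) ^ 2 = |γ - y| ^ 2 by rw [sq_abs]; ring]
      nlinarith
    have hu0 : 0 < (y - γ) ^ 2 := by linarith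
    have hv : 0 ≤ δ1 ^ 2 / (y - γ) ^ 2 := by positivity
    have hlog : Real.log (1 + δ1 ^ 2 / (y - γ) ^ 2) ≤ δ1 ^ 2 / (y - γ) ^ 2 := by
      have := Real.log_le_sub_one_of_pos (x := 1 + δ1 ^ 2 / (y - γ) ^ 2) (by positivity)
      linarith
    have hlog0 : 0 ≤ Real.log (1 + δ1 ^ 2 / (y - γ) ^ 2) := Real.log_nonneg (by linarith)
    rw [Real.norm_of_nonneg (by positivity)]
    have h4 : δ1 ^ 2 / (y - γ) ^ 2 ≤ 2 * δ1 * (δ1 / (δ1 ^ 2 + (y - γ) ^ 2)) := by
      rw [mul_div_assoc', div_le_div_iff₀ hu0 (by positivity)]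
      have h5 : δ1 ^ 2 ≤ (y - γ) ^ 2 := by nlinarith
      nlinarith [mul_le_mul_of_nonneg_left h5 (sq_nonneg δ1)]
    calc (mz γ : ℝ) * Real.log (1 + δ1 ^ 2 / (y - γ) ^ 2) ≤
        (mz γ : ℝ) * (2 * δ1 * (δ1 / (δ1 ^ 2 + (y - γ) ^ 2))) :=
          mul_le_mul_of_nonneg_left (hlog.trans h4) (Nat.cast_nonneg _)
      _ = 2 * δ1 * ((mz γ : ℝ) * (δ1 / (δ1 ^ 2 + (y - γ) ^ 2))) := by ring
  · have h2 : (mz γ : ℝ) = 0 := by
      rw [mz_eq, zeroMult_eq_zero_of_ne hz]
      simp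
    rw [h2]
    simp

/-- the derivative at a simple zero. -/
lemma xi_deriv_ne {y : ℝ} (hm : mz y = 1) : xi (1 / 2 + y * I) = 0 ∧
    deriv xi (1 / 2 + y * I) ≠ 0 := by
  have h1 := xi_mult y
  rw [← mz_eq, hm] at h1
  have han : AnalyticAt ℂ xi (1 / 2 + y * I) := differentiable_xi.analyticAt _
  have h2 : analyticOrderAt xi (1 / 2 + y * I) = 1 := by
    rw [analyticOrderNatAt] at h1
    have h3 : analyticOrderAt xi (1 / 2 + y * I) ≠ ⊤ := by
      intro h4
      rw [h4] at h1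
      simp at h1
    rw [← ENat.natCast_toNat h3, h1]
    rfl
  have h0 : xi (1 / 2 + y * I) = 0 := by
    apply apply_eq_zero_of_analyticOrderAt_ne_zero
    rw [h2]
    exact one_ne_zero
  refine ⟨h0, ?_⟩
  have h5 := han.analyticOrderAt_deriv_add_one
  rw [h0] at h5
  simp only [sub_zero] at h5
  rw [h2] at h5
  have h6 : analyticOrderAt (deriv xi) (1 / 2 + y * I) = 0 := by
    generalize analyticOrderAt (deriv xi) (1 / 2 + y * I) = x at h5
    induction x using ENat.recTopCoe with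
    | top => simp at h5
    | coe n =>
      norm_cast at h5
      have : n = 0 := by omega
      rw [this]
      rfl
  exact (han.deriv.analyticOrderAt_eq_zero).1 h6

/-- **LX2** -/
theorem lx2 (h : PfrStatement) : Lx2Statement := by
  intro y δ1 hm h0 h1
  obtain ⟨hx0, hxd⟩ := xi_deriv_ne hm
  have hsum := sl_summable h y δ1 h0 h1
  refine ⟨hsum, hxd, ?_⟩
  obtain ⟨A, hA⟩ : ∃ A : ℝ, A = Real.log ‖xi (1 / 2 + δ1 + y * I)‖ := ⟨_, rfl⟩
  -- the identity for `0 < η < δ1`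
  have hid : ∀ η : ℝ, 0 < η → η < δ1 → Real.log ‖xi (1 / 2 + η + y * I)‖ - Real.log η =
      A - Real.log δ1 - 1 / 2 * ∑' γ : ℝ, if γ = y then 0 else (mz γ : ℝ) *
        Real.log ((δ1 ^ 2 + (y - γ) ^ 2) / (η ^ 2 + (y - γ) ^ 2)) := by
    intro η hη hη1
    obtain ⟨hs, hi⟩ := int_PD_tsum h y hη hη1.le h1
    rw [int_PD h y hη hη1.le h1, ← hA, hs.tsum_eq_add_tsum_ite y] at hi
    have e1 : (mz y : ℝ) * (1 / 2 * Real.log ((δ1 ^ 2 + (y - y) ^ 2) / (η ^ 2 + (y - y) ^ 2))) =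
        Real.log δ1 - Real.log η := by
      rw [hm, sub_self, zero_pow two_ne_zero, add_zero, add_zero,
        Real.log_div (by positivity) (by positivity), Real.log_pow, Real.log_pow]
      push_cast
      ring
    have e2 : (∑' γ : ℝ, if γ = y then 0 else (mz γ : ℝ) *
        (1 / 2 * Real.log ((δ1 ^ 2 + (y - γ) ^ 2) / (η ^ 2 + (y - γ) ^ 2)))) =
        1 / 2 * ∑' γ : ℝ, if γ = y then 0 else (mz γ : ℝ) *
          Real.log ((δ1 ^ 2 + (y - γ) ^ 2) / (η ^ 2 + (y - γ) ^ 2)) := by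
      rw [← tsum_mul_left]
      congr 1
      funext γ
      split_ifs
      · ring
      · ring
    rw [e1, e2] at hi
    linarith
  -- the limit of the left side
  have hlim1 : Tendsto (fun η : ℝ => Real.log ‖xi (1 / 2 + η + y * I)‖ - Real.log η) (𝓝[>] 0)
      (𝓝 (Real.log ‖deriv xi (1 / 2 + y * I)‖)) := by
    have hd := xi_line_deriv y 0
    have e0 : (1 / 2 + ((0 : ℝ) : ℂ) + y * I : ℂ) = 1 / 2 + y * I := by simp
    rw [e0] at hd
    have h2 := hd.tendsto_slope_zero_right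
    have h3 : Tendsto (fun t : ℝ => ‖(t⁻¹ : ℝ) • (xi (1 / 2 + ((0 + t : ℝ) : ℂ) + y * I) -
        xi (1 / 2 + ((0 : ℝ) : ℂ) + y * I))‖) (𝓝[>] 0) (𝓝 ‖deriv xi (1 / 2 + y * I)‖) := h2.norm
    have h4 := h3.log (norm_ne_zero_iff.2 hxd)
    refine h4.congr' ?_
    filter_upwards [self_mem_nhdsWithin, Ioo_mem_nhdsGT h0] with t ht ht2
    rw [mem_Ioi] at ht
    rw [e0, hx0, sub_zero, zero_add, norm_smul, Real.norm_of_nonneg (by positivity)]
    have hne : ‖xi (1 / 2 + (t : ℂ) + y * I)‖ ≠ 0 :=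
      norm_ne_zero_iff.2 (h y t ht (ht2.2.trans h1)).2.1
    rw [Real.log_mul (by positivity) hne, Real.log_inv]
    ring
  -- the limit of the right side
  have hlim2 : Tendsto (fun η : ℝ => ∑' γ : ℝ, if γ = y then 0 else (mz γ : ℝ) *
        Real.log ((δ1 ^ 2 + (y - γ) ^ 2) / (η ^ 2 + (y - γ) ^ 2))) (𝓝[>] 0) (𝓝 (SL δ1 y)) := by
    unfold SL
    apply tendsto_tsum_of_dominated_convergence hsum
    · intro γ
      by_cases hy : γ = y
      · simp only [if_pos hy]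
        exact tendsto_const_nhds
      · simp only [if_neg hy]
        apply Tendsto.const_mul
        have hu : 0 < (y - γ) ^ 2 := by
          have : y - γ ≠ 0 := fun h' => hy (by linarith)
          positivity
        have e3 : Real.log (1 + δ1 ^ 2 / (y - γ) ^ 2) =
            Real.log ((δ1 ^ 2 + (y - γ) ^ 2) / ((0:ℝ) ^ 2 + (y - γ) ^ 2)) := by
          congr 1
          field_simp
          ring
        rw [e3]
        apply Tendsto.log
        · apply Tendsto.div tendsto_const_nhds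
          · apply Tendsto.add_const
            apply Tendsto.pow
            exact tendsto_nhdsWithin_of_tendsto_nhds tendsto_id
          · positivity
        · have : 0 < (δ1 ^ 2 + (y - γ) ^ 2) / ((0:ℝ) ^ 2 + (y - γ) ^ 2) := by positivity
          exact this.ne'
    · filter_upwards [self_mem_nhdsWithin, Ioo_mem_nhdsGT h0] with η hη hη2 γ
      rw [mem_Ioi] at hη
      by_cases hy : γ = y
      · simp only [if_pos hy]
        simp
      · simp only [if_neg hy]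
        have hu : 0 < (y - γ) ^ 2 := by
          have : y - γ ≠ 0 := fun h' => hy (by linarith)
          positivity
        have h2 : 1 ≤ (δ1 ^ 2 + (y - γ) ^ 2) / (η ^ 2 + (y - γ) ^ 2) := by
          rw [one_le_div (by positivity)]
          have : η ^ 2 ≤ δ1 ^ 2 := by
            have := hη2.2.le
            gcongr
          linarith
        have h3 : (δ1 ^ 2 + (y - γ) ^ 2) / (η ^ 2 + (y - γ) ^ 2) ≤ 1 + δ1 ^ 2 / (y - γ) ^ 2 := by
          have e4 : 1 + δ1 ^ 2 / (y - γ) ^ 2 = (δ1 ^ 2 + (y - γ) ^ 2) / (y - γ) ^ 2 := by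
            field_simp
            ring
          rw [e4]
          apply div_le_div_of_nonneg_left (by positivity) hu
          nlinarith [sq_nonneg η]
        have h4 : 0 ≤ Real.log ((δ1 ^ 2 + (y - γ) ^ 2) / (η ^ 2 + (y - γ) ^ 2)) :=
          Real.log_nonneg h2
        have h5 : 0 ≤ (mz γ : ℝ) := Nat.cast_nonneg _
        rw [Real.norm_of_nonneg (mul_nonneg h5 h4)]
        apply mul_le_mul_of_nonneg_left _ h5
        exact Real.log_le_log (by linarith) h3
  have hlim3 : Tendsto (fun η : ℝ => Real.log ‖xi (1 / 2 + η + y * I)‖ - Real.log η) (𝓝[>] 0)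
      (𝓝 (A - Real.log δ1 - 1 / 2 * SL δ1 y)) := by
    have h2 := (hlim2.const_mul (1 / 2 : ℝ)).const_sub (A - Real.log δ1)
    refine h2.congr' ?_
    filter_upwards [Ioo_mem_nhdsGT h0] with η hη
    exact (hid η hη.1 hη.2).symm
  have := tendsto_nhds_unique hlim1 hlim3
  rw [this, hA]

end Pool.Agent.Lib.MP_6bc78b_nt.MS.GL.H17
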