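import Pool.Agent.Lib.MP_6bc78b_nt.MS.GL.Iface
import Pool.Agent.Lib.MP_6bc78b_nt.MS.QZ.H17.Liq

/-! SLI: the distribution of the normalized prime sum with Montgomery's weight. -/

set_option autoImplicit false

open Complex Filter Topology MeasureTheory

namespace Pool.Agent.Lib.MP_6bc78b_nt.MS.GL.H17

open Pool.Agent.Lib.MP_6bc78b_nt.MS Pool.Agent.Lib.MP_6bc78b_nt.MS.P1
open Pool.Agent.Lib.MP_6bc78b_nt.MS.QZ Pool.Agent.Lib.MP_6bc78b_nt.MS.QZ.H17
open Pool.Agent.Lib.MP_6bc78b_nt.MS.GL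

/-- Montgomery's weight dominates the number of near zeros. -/
lemma sli_ptc (h : PtcStatement) {lam : ℝ} (h0 : 0 < lam) (h1 : lam < 1) : ∃ C : ℝ, 0 < C ∧
    ∀ᶠ T : ℝ in atTop, ∀ γ ∈ zset T, ∀ c : ℝ, 0 ≤ c → c ≤ 1 →
      (1 - c ^ 2) * nC c T γ ≤ WM lam C T γ := by
  obtain ⟨C, hC, hp⟩ := h (1 - lam) (by linarith) (by linarith)
  refine ⟨C, hC, ?_⟩
  filter_upwards [eventually_ge_atTop (6 : ℝ),
    Real.tendsto_log_atTop.eventually_ge_atTop (1 / lam)] with T hT1 hT2 γ hγ c hc hc1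
  refine hp T lam c γ hT1 ?_ (by linarith) hc hc1 hγ.1 hγ.2.1
  rw [div_le_iff₀ h0] at hT2
  linarith

/-- **SLI** -/
theorem sli (h1 : PtcStatement) (h2 : MrbStatement) (h3 : ChfStatement) (h4 : LevStatement)
    (h5 : ZfacStatement) : SliStatement := by
  obtain ⟨-, -, -, -, -, -, hfin⟩ := h5
  intro lam hlam hlam1
  obtain ⟨C, hC, hptc⟩ := sli_ptc h1 hlam hlam1
  refine ⟨C, hC, hptc, ?_⟩
  intro x ε hε
  obtain ⟨A, hA⟩ : ∃ A : ℝ, A = 1 / lam + lam / 3 := ⟨_, rfl⟩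
  have hA0 : 0 < A := by rw [hA]; positivity
  rw [← hA]
  have hWM : ∀ᶠ T : ℝ in atTop, ∀ γ ∈ zset T, 0 ≤ WM lam C T γ := by
    filter_upwards [hptc] with T hT γ hγ
    have := hT γ hγ 1 zero_le_one le_rfl
    norm_num at this
    exact this
  by_contra hcon
  rw [Filter.not_eventually] at hcon
  obtain ⟨u, hu, hP⟩ := Filter.exists_seq_forall_of_frequently hcon
  let s : ℕ → Finset ℝ := fun n => (hfin (u n)).toFinset
  let w : ℕ → ℝ → ℝ := fun n γ => (mz γ : ℝ) * wt (u n) γ * max (WM lam C (u n) γ) 0 /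
    (A * |cG (u n) * Real.log (u n)|)
  let f : ℕ → ℝ → ℝ := fun n γ => X0 (u n) γ
  have hw : ∀ n γ, 0 ≤ w n γ := fun n γ =>
    div_nonneg (mul_nonneg (mul_nonneg (Nat.cast_nonneg _) (Real.exp_pos _).le)
      (le_max_right _ _)) (mul_nonneg hA0.le (abs_nonneg _))
  have hpos : ∀ᶠ n in atTop, 0 < cG (u n) * Real.log (u n) := by
    filter_upwards [hu.eventually_gt_atTop 1] with n hn
    exact mul_pos (cG_pos hn) (Real.log_pos hn)
  have hnn : ∀ᶠ n in atTop, ∀ γ ∈ zset (u n), 0 ≤ WM lam C (u n) γ := hu.eventually hWM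
  have hmem : ∀ n γ, γ ∈ s n ↔ γ ∈ zset (u n) := fun n γ => (hfin (u n)).mem_toFinset
  have hmom : ∀ k : ℕ, Tendsto (fun n => ∑ γ ∈ s n, w n γ * f n γ ^ k) atTop (𝓝 (gm k)) := by
    intro k
    have hk := ((h2 lam C k hlam hlam1).comp hu).const_mul A⁻¹
    rw [← hA, ← mul_assoc, inv_mul_cancel₀ hA0.ne', one_mul] at hk
    refine hk.congr' ?_
    filter_upwards [hpos, hnn] with n hn hn2
    simp only [Function.comp_apply]
    rw [finsum_mem_eq_finite_toFinset_sum _ (hfin (u n)), Finset.sum_div, Finset.mul_sum]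
    refine Finset.sum_congr rfl fun γ hγ => ?_
    have h6 : max (WM lam C (u n) γ) 0 = WM lam C (u n) γ :=
      max_eq_left (hn2 γ ((hmem n γ).1 hγ))
    simp only [w, f, abs_of_pos hn, h6]
    field_simp
  have hlim := h4 s w f hw (h3 s w f hw hmom) x
  have hlt : ∀ᶠ n in atTop, |∑ γ ∈ (s n).filter (fun γ => x < f n γ), w n γ - Qf x| < ε / A := by
    have := Metric.tendsto_nhds.1 hlim (ε / A) (by positivity)
    filter_upwards [this] with n hn
    rwa [Real.dist_eq] at hn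
  obtain ⟨n, ⟨hn1, hn3⟩, hn2⟩ := ((hpos.and hnn).and hlt).exists
  apply hP n
  have hset : {γ | γ ∈ zset (u n) ∧ x < X0 (u n) γ} =
      (((s n).filter (fun γ => x < f n γ) : Finset ℝ) : Set ℝ) := by
    ext γ
    simp [s, f]
  rw [hset, finsum_mem_coe_finset]
  have e : ∑ γ ∈ (s n).filter (fun γ => x < f n γ), w n γ =
      (∑ γ ∈ (s n).filter (fun γ => x < f n γ), (mz γ : ℝ) * wt (u n) γ * WM lam C (u n) γ) /
        (A * (cG (u n) * Real.log (u n))) := by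
    rw [Finset.sum_div]
    refine Finset.sum_congr rfl fun γ hγ => ?_
    have h6 : max (WM lam C (u n) γ) 0 = WM lam C (u n) γ :=
      max_eq_left (hn3 γ ((hmem n γ).1 (Finset.mem_filter.1 hγ).1))
    simp only [w, abs_of_pos hn1, h6]
  rw [e] at hn2
  obtain ⟨c, hc⟩ : ∃ c : ℝ, c = cG (u n) * Real.log (u n) := ⟨_, rfl⟩
  obtain ⟨S, hS⟩ : ∃ S : ℝ, S = ∑ γ ∈ (s n).filter (fun γ => x < f n γ),
    (mz γ : ℝ) * wt (u n) γ * WM lam C (u n) γ := ⟨_, rfl⟩
  rw [← hc] at hn1 hn2 ⊢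
  rw [← hS] at hn2 ⊢
  have e2 : S - A * Qf x * c = (A * c) * (S / (A * c) - Qf x) := by
    field_simp
  rw [e2, abs_mul, abs_of_pos (by positivity)]
  calc A * c * |S / (A * c) - Qf x| ≤ A * c * (ε / A) := by gcongr
    _ = ε * c := by field_simp

end Pool.Agent.Lib.MP_6bc78b_nt.MS.GL.H17
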